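import Pool.Agent.H0.Subsum.Main

set_option autoImplicit false
open Set Pool.Agent.Subsum

namespace Pool.Agent.Results.MP_c42e77_an.ContinuumLevel

/-- For every summable sequence of positive reals, the level set `L_𝔠(x)` is empty or contains
a Cantor set (Q1, positive answer). -/
theorem result : ∀ x : ℕ → ℝ, (∀ n, 0 < x n) → Summable x →
    (Lc x = ∅ ∨ ContainsCantor (Lc x)) := by
  intro x hx hs
  rcases Set.eq_empty_or_nonempty (Lc x) with h | ⟨t, ht⟩
  · exact Or.inl h
  · exact Or.inr (main hx hs t ht)

end Pool.Agent.Results.MP_c42e77_an.ContinuumLevel
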